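import Mathlib

namespace Pool.Agent.Results.MP_975ca8_an.Unbounded

open Finset

/-- Here `y n` stands for `x_{n-l}`, so that `x_{n+1} = 1 / (B_n x_n + x_{n-l})` reads
`y (n+l+1) = 1 / (B n * y (n+l) + y n)`. -/
theorem result (k l : ℕ) (B : ℕ → ℝ) (hB : ∀ n, 0 ≤ B n)
    (hper : ∀ n, B (n + k) = B n) (i : ℕ) (hi : ∀ j, 0 < B (i + (l + 2) * j))
    (hP : ∏ j ∈ range k, (B (i + (l + 2) * j + (l + 1)) + 1 / B (i + (l + 2) * j)) < 1)
    (y : ℕ → ℝ) (h0 : ∀ n ≤ l, 0 < y n)
    (hy : ∀ n, y (n + l + 1) = 1 / (B n * y (n + l) + y n)) : ¬ BddAbove (Set.range y) := by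
  have hp : ∀ n, 0 < y n := by
    intro n
    induction n using Nat.strong_induction_on with
    | _ n ih =>
      by_cases h : n ≤ l
      · exact h0 n h
      · obtain ⟨m, rfl⟩ : ∃ m, n = m + l + 1 := ⟨n - l - 1, by omega⟩
        have := ih m (by omega); have := ih (m + l) (by omega); have := hB m
        rw [hy]; positivity
  have e : ∀ n, y (n + l + 1) * (B n * y (n + l) + y n) = 1 := by
    intro n; have := hp n; have := hp (n + l); have := hB n; rw [hy]; field_simp
  set c : ℕ → ℝ := fun n => B (n + (l + 1)) + 1 / B n with hc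
  have one : ∀ n, 0 < B n → y (n + l) ≤ c n * y (n + l + (l + 2)) := by
    intro n hn
    have e1 := e n
    have e2 := e (n + l)
    have e3 := e (n + (l + 1))
    rw [show n + (l + 1) + l + 1 = n + l + (l + 2) by ring,
      show n + (l + 1) + l = n + l + l + 1 by ring] at e3
    rw [show n + (l + 1) = n + l + 1 by ring] at e3
    have a1 : y (n + l) * y (n + l + 1) ≤ 1 / B n := by
      rw [le_div_iff₀ hn]; nlinarith [mul_pos (hp (n + l + 1)) (hp n)]
    have a2 : y (n + l) * y (n + l + l + 1) ≤ 1 := by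
      nlinarith [mul_nonneg (hp (n + l + l + 1)).le (mul_nonneg (hB (n + l)) (hp (n + l + l)).le)]
    have a3 : y (n + l) * (B (n + l + 1) * y (n + l + l + 1) + y (n + l + 1)) ≤ c n := by
      simp only [hc]; rw [show n + (l + 1) = n + l + 1 by ring]
      nlinarith [mul_le_mul_of_nonneg_left a2 (hB (n + l + 1))]
    calc y (n + l) = y (n + l) * (B (n + l + 1) * y (n + l + l + 1) + y (n + l + 1))
          * y (n + l + (l + 2)) := by
          rw [mul_assoc, mul_comm _ (y (n + l + (l + 2))), e3, mul_one]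
      _ ≤ _ := mul_le_mul_of_nonneg_right a3 (hp _).le
  have hc0 : ∀ j, 0 < c (i + (l + 2) * j) := fun j => by
    have := hi j; have := hB (i + (l + 2) * j + (l + 1)); simp only [hc]; positivity
  have hcp : Function.Periodic c k := fun n => by
    simp only [hc]; rw [hper, show n + k + (l + 1) = n + (l + 1) + k by ring, hper]
  have step : ∀ m s, y (i + (l + 2) * m + l) ≤
      (∏ j ∈ range s, c (i + (l + 2) * (m + j))) * y (i + (l + 2) * (m + s) + l) := by
    intro m s
    induction s with
    | zero => simp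
    | succ s ih =>
      have h := one _ (hi (m + s))
      have hP : 0 < ∏ j ∈ range s, c (i + (l + 2) * (m + j)) := prod_pos fun j _ => hc0 _
      rw [prod_range_succ, show i + (l + 2) * (m + (s + 1)) + l
        = i + (l + 2) * (m + s) + l + (l + 2) by ring, mul_assoc]
      exact ih.trans (mul_le_mul_of_nonneg_left h hP.le)
  set P := ∏ j ∈ range k, c (i + (l + 2) * j) with hPd
  have hP1 : P < 1 := hP
  have hP0 : 0 < P := prod_pos fun j _ => hc0 _
  have grow : ∀ m, y (i + l) ≤ P ^ m * y (i + (l + 2) * (m * k) + l) := by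
    intro m
    induction m with
    | zero => simp
    | succ m ih =>
      have h := step (m * k) k
      have e1 : ∏ j ∈ range k, c (i + (l + 2) * (m * k + j)) = P := by
        refine prod_congr rfl fun j _ => ?_
        have := hcp.nat_mul ((l + 2) * m) (i + (l + 2) * j)
        rw [← this]; congr 1; push_cast; ring
      rw [e1, show m * k + k = (m + 1) * k by ring] at h
      rw [pow_succ, mul_assoc]
      exact ih.trans (mul_le_mul_of_nonneg_left h (pow_pos hP0 m).le)
  rintro ⟨M, hM⟩
  have hM' : ∀ n, y n ≤ M := fun n => hM ⟨n, rfl⟩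
  have hM0 : 0 < M := (hp 0).trans_le (hM' 0)
  obtain ⟨m, hm⟩ := exists_pow_lt_of_lt_one (div_pos (hp (i + l)) hM0) hP1
  rw [lt_div_iff₀ hM0] at hm
  have := mul_le_mul_of_nonneg_left (hM' (i + (l + 2) * (m * k) + l)) (pow_pos hP0 m).le
  linarith [grow m]

end Pool.Agent.Results.MP_975ca8_an.Unbounded
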